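import Pool.Agent.Lib.MP_68998a_co.ConsMin

namespace Pool.Agent.Results.MP_68998a_co.DelaunaySizes

open Pool.Agent.Lib.MP_68998a_co

/-- Extremal sizes of Delaunay triangulations of `n` points in 3-space, `m` of them extremal. -/
theorem result (n m : ℕ) (hm : 4 ≤ m) (hn : m ≤ n) :
    IsLeast (sizes n m) (n - 3) ∧ IsGreatest (sizes n m) ((n - 1).choose 2 + 2 - m) :=
  ⟨(main n m hm hn).1, (main n m hm hn).2.1⟩

end Pool.Agent.Results.MP_68998a_co.DelaunaySizes
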