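import Pool.Agent.Lib.MP_68998a_co.ConsMin

namespace Pool.Agent.Results.MP_68998a_co.GeneralPosition

open Pool.Agent.Lib.MP_68998a_co

/-- The same extremal problem when, in addition, no four points are coplanar. -/
theorem result (n m : ℕ) (hm : 4 ≤ m) (hn : m ≤ n) :
    IsLeast (sizesGP n m) (3 * n - 2 * m - 3) ∧
    IsGreatest (sizesGP n m) ((n - 1).choose 2 + 2 - m) :=
  (main n m hm hn).2.2

end Pool.Agent.Results.MP_68998a_co.GeneralPosition
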